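import Pool.Agent.N554.HVZ.Def

/-!
# HV/ROT: images of letters under class `P` morphisms are rotations of their reversals (helper49)
-/

set_option autoImplicit false

namespace Pool.Agent.N49.HVZ

open Pool.Agent.N554.HKS (ext)
open Pool.Agent.N554.HVZ

theorem rot_of_conj {A : Type*} : ∀ (n : ℕ) (x y w : List A), w.length ≤ n →
    x ++ w = w ++ y → x.IsRotated y := by
  intro n
  induction n with
  | zero =>
    intro x y w hw h
    have : w = [] := List.length_eq_zero_iff.1 (Nat.le_zero.1 hw)
    rw [this, List.append_nil, List.nil_append] at h
    rw [h]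
  | succ n ih =>
    intro x y w hw h
    rcases List.append_eq_append_iff.1 h with ⟨c, h1, h2⟩ | ⟨c, h1, h2⟩
    · by_cases hx : x = []
      · rw [hx, List.nil_append] at h
        have h3 : y = [] := by
          have := congrArg List.length h
          rw [List.length_append] at this
          exact List.length_eq_zero_iff.1 (by omega)
        rw [hx, h3]
      · have hl : 0 < x.length := List.length_pos_iff.2 hx
        have h4 : w.length = x.length + c.length := by rw [h1, List.length_append]
        exact ih x y c (by omega) (h1.symm.trans h2)
    · rw [h1, h2]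
      exact List.isRotated_append

theorem ext_conj {A B : Type*} {f g : A → List B} {w : List B} (h : ∀ a, f a ++ w = w ++ g a)
    (s : List A) : ext f s ++ w = w ++ ext g s := by
  induction s with
  | nil => simp [ext]
  | cons a s ih =>
    have h1 : ext f (a :: s) = f a ++ ext f s := by simp [ext]
    have h2 : ext g (a :: s) = g a ++ ext g s := by simp [ext]
    rw [h1, h2, List.append_assoc, ih, ← List.append_assoc, h a, List.append_assoc]

theorem ext_rot {A B : Type*} {f g : A → List B} {w : List B} (h : ∀ a, f a ++ w = w ++ g a)
    (s : List A) : (ext f s).IsRotated (ext g s) :=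
  rot_of_conj _ _ _ w le_rfl (ext_conj h s)

theorem ext_rev {A B : Type*} (f : A → List B) (s : List A) :
    ext (fun a => (f a).reverse) s = (ext f s.reverse).reverse := by
  induction s with
  | nil => simp [ext]
  | cons a s ih =>
    have h1 : ext (fun a => (f a).reverse) (a :: s) =
        (f a).reverse ++ ext (fun a => (f a).reverse) s := by simp [ext]
    have h2 : ext f (a :: s).reverse = ext f s.reverse ++ f a := by simp [ext]
    rw [h1, h2, ih, List.reverse_append]

theorem conj_rot {A B : Type*} {f g : A → List B} (h : Conj f g) (s : List A) :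
    (ext f s).IsRotated (ext g s) := by
  obtain ⟨w, h | h⟩ := h
  · exact ext_rot h s
  · exact (ext_rot h s).symm

theorem conj_rev {A B : Type*} {f g : A → List B} (h : Conj f g) :
    Conj (fun a => (g a).reverse) (fun a => (f a).reverse) := by
  obtain ⟨w, h | h⟩ := h
  · refine ⟨w.reverse, Or.inl fun a => ?_⟩
    change (g a).reverse ++ w.reverse = w.reverse ++ (f a).reverse
    rw [← List.reverse_append, ← List.reverse_append, h a]
  · refine ⟨w.reverse, Or.inr fun a => ?_⟩
    change (f a).reverse ++ w.reverse = w.reverse ++ (g a).reverse
    rw [← List.reverse_append, ← List.reverse_append, h a]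

theorem class_rot {A B : Type*} {f : A → List B} (h : InClassP f) (s : List A) :
    (ext f s).IsRotated (ext (fun a => (f a).reverse) s) := by
  obtain ⟨p, hp, h⟩ := h
  refine ext_rot (w := p) (fun a => ?_) s
  have h1 := (h a).2
  rw [List.reverse_append, hp] at h1
  exact h1.symm

theorem main4 {A B : Type*} {f : A → List B} (h : ConjClassP f) (s : List A) :
    (ext f s).IsRotated (ext f s.reverse).reverse := by
  obtain ⟨π, h1, h2⟩ := h
  rw [← ext_rev]
  exact (conj_rot h1 s).trans ((class_rot h2 s).trans (conj_rot (conj_rev h1) s))

theorem rot_ext {A B : Type*} (f : A → List B) {s t : List A} (h : s.IsRotated t) :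
    (ext f s).IsRotated (ext f t) := by
  obtain ⟨n, hn, rfl⟩ := List.isRotated_iff_mod.1 h
  rw [List.rotate_eq_drop_append_take hn]
  have h1 : ext f s = ext f (s.take n) ++ ext f (s.drop n) := by
    have : ext f (s.take n ++ s.drop n) = ext f (s.take n) ++ ext f (s.drop n) :=
      List.flatMap_append
    rwa [List.take_append_drop] at this
  have h2 : ext f (s.drop n ++ s.take n) = ext f (s.drop n) ++ ext f (s.take n) :=
    List.flatMap_append
  rw [h1, h2]
  exact List.isRotated_append

theorem step {A B : Type*} {f : A → List B} (h : ConjClassP f) {s : List A}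
    (hs : s.IsRotated s.reverse) : (ext f s).IsRotated (ext f s).reverse := by
  have h1 := main4 h s.reverse
  rw [List.reverse_reverse] at h1
  exact (rot_ext f hs).trans h1

theorem ROT_proof : ROT := by
  intro A B φ ψ hφ hψ n a
  have h : ∀ n : ℕ, ((ext φ)^[n] [a]).IsRotated ((ext φ)^[n] [a]).reverse := by
    intro n
    induction n with
    | zero => exact List.IsRotated.refl _
    | succ n ih =>
      rw [Function.iterate_succ_apply']
      exact step hφ ih
  exact step hψ (h n)

end Pool.Agent.N49.HVZ
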